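import Pool.Agent.Helper70.LA.Base
import Pool.Agent.Helper56.LA.Grid

/-!
# Module LA-CERT of MP_c61924_co (helper42)
-/

set_option autoImplicit false

namespace Pool.Agent.Helper70.LA

open Finset

variable {ι : Type} [Fintype ι] [DecidableEq ι] {L : ℕ}

theorem cert_prod_inv (J : Finset ι) (r : ι → ℕ) (i : ι) (s : ℕ) (h : ∀ j ∈ J, i ≠ j ∨ r j < s)
    (x y : ι × Fin L → Bool) :
    ∏ j ∈ J, sg j (r j) (mix (low i s) x y) = ∏ j ∈ J, sg j (r j) x :=
  Finset.prod_congr rfl fun j hj => sg_mix (r j) s (h j hj) x y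

theorem EU_phi (r : ι → ℕ) (v : Finset ι → (ι → ℕ) → (ι × Fin L → Bool) → ℝ)
    (hv : ∀ I, ∀ i ∈ I, EU (low i (r i)) (v I r) =
        fun x => - EU (low i (r i)) (fun x => sg i (r i) x * v (I.erase i) r x) x) (i : ι) :
    EU (low i (r i)) (fun x => ∑ I : Finset ι, (∏ i ∈ Iᶜ, sg i (r i) x) * v I r x) = 0 := by
  funext x
  rw [EU_sum]
  have hu : (univ : Finset (Finset ι)) = (insert i ((univ : Finset ι).erase i)).powerset := by
    rw [Finset.insert_erase (mem_univ i), Finset.powerset_univ]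
  rw [hu, Finset.sum_powerset_insert (Finset.notMem_erase i _), ← Finset.sum_add_distrib]
  refine Finset.sum_eq_zero fun I hI => ?_
  rw [mem_powerset, Finset.subset_erase] at hI
  have hiI : i ∉ I := hI.2
  -- the common factor
  have e1 : Iᶜ = insert i ((insert i I)ᶜ) := by
    ext j
    simp only [mem_compl, mem_insert, not_or]
    by_cases hj : j = i
    · subst hj
      simp [hiI]
    · simp [hj]
  have e2 : i ∉ (insert i I)ᶜ := by simp
  have hP : ∀ x y : ι × Fin L → Bool, (∏ j ∈ (insert i I)ᶜ, sg j (r j) (mix (low i (r i)) x y)) =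
      ∏ j ∈ (insert i I)ᶜ, sg j (r j) x := by
    intro x y
    refine cert_prod_inv _ r i (r i) (fun j hj => Or.inl ?_) x y
    rintro rfl
    exact e2 hj
  have hmul : ∀ f : (ι × Fin L → Bool) → ℝ,
      EU (low i (r i)) (fun x => (∏ j ∈ (insert i I)ᶜ, sg j (r j) x) * f x) x =
        (∏ j ∈ (insert i I)ᶜ, sg j (r j) x) * EU (low i (r i)) f x := fun f =>
    EU_mul_inv (U := low i (r i)) (h := fun x => ∏ j ∈ (insert i I)ᶜ, sg j (r j) x) hP f x
  have t1 : EU (low i (r i)) (fun x => (∏ j ∈ Iᶜ, sg j (r j) x) * v I r x) x =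
      (∏ j ∈ (insert i I)ᶜ, sg j (r j) x) *
        EU (low i (r i)) (fun x => sg i (r i) x * v I r x) x := by
    rw [← hmul]
    congr 1
    funext x
    rw [e1, Finset.prod_insert e2]
    ring
  have t2 : EU (low i (r i)) (fun x => (∏ j ∈ (insert i I)ᶜ, sg j (r j) x) * v (insert i I) r x) x =
      (∏ j ∈ (insert i I)ᶜ, sg j (r j) x) * EU (low i (r i)) (v (insert i I) r) x :=
    hmul (v (insert i I) r)
  rw [t1, t2, hv (insert i I) i (mem_insert_self i I), Finset.erase_insert hiI]
  ring

theorem cert_mix_sub {K : Type} [DecidableEq K] {U V : Finset K} (h : V ⊆ U) (x y : K → Bool) :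
    mix U x (mix V x y) = mix V x y := by
  funext k
  unfold mix
  by_cases hU : k ∈ U
  · simp [hU]
  · have hV : k ∉ V := fun hk => hU (h hk)
    simp [hU, hV]

/-- orthogonality -/
theorem cert_orth (n : ℕ) (hn : n < L) (g : (ι → ℕ) → (ι × Fin L → Bool) → ℝ)
    (hginv : ∀ r ∈ shapes ι n, ∀ i x y, g r (mix (low i (r i)) x y) = g r x)
    (I : Finset ι) (r r' : ι → ℕ) (hr : r ∈ shapes ι n) (hr' : r' ∈ shapes ι n) (hne : r ≠ r')
    (hI : ∀ i ∈ I, r i = r' i) :
    (av fun x => (g r x * ∏ i ∈ Iᶜ, sg i (r i) x) * (g r' x * ∏ i ∈ Iᶜ, sg i (r' i) x)) = 0 := by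
  have hr2 := hr
  have hr2' := hr'
  rw [shapes, mem_filter, Fintype.mem_piFinset] at hr hr'
  -- a coordinate with `r i < r' i`
  obtain ⟨i, hi⟩ : ∃ i, r i < r' i := by
    by_contra hcon
    push Not at hcon
    apply hne
    have h1 : ∑ i, r' i = ∑ i, r i := hr'.2.trans hr.2.symm
    have h2 := (Finset.sum_eq_sum_iff_of_le (fun i _ => hcon i)).1 h1
    funext i
    exact (h2 i (mem_univ i)).symm
  have hiI : i ∉ I := fun h => by
    have := hI i h
    omega
  have hiL : r' i < L := by
    have := hr'.1 i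
    rw [mem_range] at this
    omega
  -- the invariant factor
  set h : (ι × Fin L → Bool) → ℝ := fun x => (g r x * ∏ j ∈ Iᶜ, sg j (r j) x) *
    (g r' x * ∏ j ∈ (insert i I)ᶜ, sg j (r' j) x) with hh
  have e1 : Iᶜ = insert i ((insert i I)ᶜ) := by
    ext j
    simp only [mem_compl, mem_insert, not_or]
    by_cases hj : j = i
    · subst hj
      simp [hiI]
    · simp [hj]
  have e2 : i ∉ (insert i I)ᶜ := by simp
  have hinv : ∀ x y, h (mix (low i (r' i)) x y) = h x := by
    intro x y
    have a1 : g r (mix (low i (r' i)) x y) = g r x := by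
      have hsub : low (L := L) i (r' i) ⊆ low i (r i) := low_antitone i hi.le
      rw [← cert_mix_sub hsub x y]
      exact hginv r hr2 i x _
    have a2 : ∏ j ∈ Iᶜ, sg j (r j) (mix (low i (r' i)) x y) = ∏ j ∈ Iᶜ, sg j (r j) x := by
      refine cert_prod_inv _ r i (r' i) (fun j hj => ?_) x y
      by_cases hij : i = j
      · right
        rw [← hij]
        exact hi
      · exact Or.inl hij
    have a3 : ∏ j ∈ (insert i I)ᶜ, sg j (r' j) (mix (low i (r' i)) x y) =
        ∏ j ∈ (insert i I)ᶜ, sg j (r' j) x := by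
      refine cert_prod_inv _ r' i (r' i) (fun j hj => Or.inl ?_) x y
      rintro rfl
      exact e2 hj
    simp only [hh]
    rw [a1, a2, a3, hginv r' hr2' i x y]
  have e3 : (fun x => (g r x * ∏ i ∈ Iᶜ, sg i (r i) x) * (g r' x * ∏ i ∈ Iᶜ, sg i (r' i) x)) =
      fun x => h x * sg i (r' i) x := by
    funext x
    simp only [hh]
    conv_lhs => rw [e1, Finset.prod_insert e2]
    conv_rhs => rw [e1, Finset.prod_insert e2]
    rw [Finset.prod_insert e2]
    ring
  rw [e3, av_mul_inv hinv]
  have e4 : (fun x : ι × Fin L → Bool => h x * EU (low i (r' i)) (sg i (r' i)) x) = fun _ => 0 := by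
    funext x
    rw [EU_sg i hiL le_rfl, mul_zero]
  rw [e4, av_const]

theorem cert_norm (n : ℕ) (hn : n < L) (g : (ι → ℕ) → (ι × Fin L → Bool) → ℝ)
    (hg : ∀ r x, g r x = 0 ∨ g r x = 1)
    (hginv : ∀ r ∈ shapes ι n, ∀ i x y, g r (mix (low i (r i)) x y) = g r x)
    (v : Finset ι → (ι → ℕ) → (ι × Fin L → Bool) → ℝ)
    (hdep : ∀ I r r', (∀ i ∈ I, r i = r' i) → v I r = v I r') (A : ℝ)
    (hA : ∀ I, ∑ r ∈ box I n, (av fun x => v I r x ^ 2) ≤ A) :
    (av fun x => |∑ r ∈ shapes ι n, phi (g r) v r x|) ≤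
      2 ^ Fintype.card ι * (√A * √((shapes ι n).card)) := by
  -- the part belonging to `I`
  have hpart : ∀ I : Finset ι, (av fun x => |∑ r ∈ shapes ι n,
      (g r x * ∏ i ∈ Iᶜ, sg i (r i) x) * v I r x|) ≤ √A * √((shapes ι n).card) := by
    intro I
    let ρ : (ι → ℕ) → ι → ℕ := fun r i => if i ∈ I then r i else 0
    have hρ : ∀ r ∈ shapes ι n, ρ r ∈ box I n := by
      intro r hr
      rw [shapes, mem_filter, Fintype.mem_piFinset] at hr
      rw [box, Fintype.mem_piFinset]
      intro i
      by_cases hi : i ∈ I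
      · simpa [ρ, hi] using hr.1 i
      · simp [ρ, hi]
    let T : (ι → ℕ) → Finset (ι → ℕ) := fun s => (shapes ι n).filter fun r => ρ r = s
    let H : (ι → ℕ) → (ι × Fin L → Bool) → ℝ := fun s x =>
      ∑ r ∈ T s, g r x * ∏ i ∈ Iᶜ, sg i (r i) x
    have hTdep : ∀ s, ∀ r ∈ T s, v I r = v I s := by
      intro s r hr
      apply hdep
      intro i hi
      have h1 : ρ r = s := (mem_filter.1 hr).2
      rw [← h1]
      simp [ρ, hi]
    have hgroup : ∀ x, ∑ r ∈ shapes ι n, (g r x * ∏ i ∈ Iᶜ, sg i (r i) x) * v I r x =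
        ∑ s ∈ box I n, v I s x * H s x := by
      intro x
      rw [← Finset.sum_fiberwise_of_maps_to hρ]
      refine Finset.sum_congr rfl fun s _ => ?_
      rw [Finset.mul_sum]
      refine Finset.sum_congr rfl fun r hr => ?_
      rw [hTdep s r hr]
      ring
    -- the norm of `H s`
    have hH : ∀ s, (av fun x => H s x ^ 2) ≤ ((T s).card : ℝ) := by
      intro s
      have e1 : (av fun x => H s x ^ 2) = ∑ r ∈ T s, ∑ r' ∈ T s,
          av fun x => (g r x * ∏ i ∈ Iᶜ, sg i (r i) x) * (g r' x * ∏ i ∈ Iᶜ, sg i (r' i) x) := by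
        rw [← Finset.sum_congr rfl fun r _ => av_sum (T s) fun r' x =>
          (g r x * ∏ i ∈ Iᶜ, sg i (r i) x) * (g r' x * ∏ i ∈ Iᶜ, sg i (r' i) x),
          ← av_sum]
        congr 1
        funext x
        rw [sq]
        simp only [H]
        rw [Finset.sum_mul_sum]
      rw [e1]
      have e2 : ∀ r ∈ T s, ∑ r' ∈ T s, (av fun x => (g r x * ∏ i ∈ Iᶜ, sg i (r i) x) *
          (g r' x * ∏ i ∈ Iᶜ, sg i (r' i) x)) ≤ 1 := by
        intro r hr
        rw [Finset.sum_eq_single r]
        · calc (av fun x => (g r x * ∏ i ∈ Iᶜ, sg i (r i) x) * (g r x * ∏ i ∈ Iᶜ, sg i (r i) x))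
              ≤ av fun _ : ι × Fin L → Bool => 1 := by
                apply av_mono
                intro x
                have h1 : (∏ i ∈ Iᶜ, sg i (r i) x) * (∏ i ∈ Iᶜ, sg i (r i) x) = 1 := by
                  rw [← Finset.prod_mul_distrib]
                  refine Finset.prod_eq_one fun i _ => ?_
                  rw [← sq, sg_sq]
                rcases hg r x with h2 | h2
                · rw [h2]
                  simp
                · rw [h2, one_mul, h1]
            _ = 1 := av_const 1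
        · intro r' hr' hne
          refine cert_orth n hn g hginv I r r' (mem_filter.1 hr).1 (mem_filter.1 hr').1 hne.symm ?_
          intro i hi
          have h1 : ρ r = s := (mem_filter.1 hr).2
          have h2 : ρ r' = s := (mem_filter.1 hr').2
          have h3 := congrFun (h1.trans h2.symm) i
          simpa [ρ, hi] using h3
        · intro h
          exact absurd hr h
      refine (Finset.sum_le_sum e2).trans ?_
      simp
    have hcard : ∑ s ∈ box I n, ((T s).card : ℝ) = (shapes ι n).card := by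
      rw [Finset.card_eq_sum_card_fiberwise hρ]
      push_cast
      rfl
    calc (av fun x => |∑ r ∈ shapes ι n, (g r x * ∏ i ∈ Iᶜ, sg i (r i) x) * v I r x|)
        ≤ av fun x => ∑ s ∈ box I n, |v I s x * H s x| := by
          apply av_mono
          intro x
          rw [hgroup x]
          exact Finset.abs_sum_le_sum_abs _ _
      _ = ∑ s ∈ box I n, av fun x => |v I s x * H s x| := av_sum _ _
      _ ≤ ∑ s ∈ box I n, √(av fun x => v I s x ^ 2) * √((T s).card : ℝ) := by
          refine Finset.sum_le_sum fun s _ => ?_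
          refine (av_abs_mul_le _ _).trans ?_
          exact mul_le_mul_of_nonneg_left (Real.sqrt_le_sqrt (hH s)) (Real.sqrt_nonneg _)
      _ ≤ √(∑ s ∈ box I n, av fun x => v I s x ^ 2) * √(∑ s ∈ box I n, ((T s).card : ℝ)) :=
          Real.sum_sqrt_mul_sqrt_le _ (fun s => av_nonneg fun x => sq_nonneg _)
            (fun s => Nat.cast_nonneg _)
      _ ≤ √A * √((shapes ι n).card) := by
          rw [hcard]
          exact mul_le_mul_of_nonneg_right (Real.sqrt_le_sqrt (hA I)) (Real.sqrt_nonneg _)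
  calc (av fun x => |∑ r ∈ shapes ι n, phi (g r) v r x|)
      ≤ av fun x => ∑ I : Finset ι, |∑ r ∈ shapes ι n,
          (g r x * ∏ i ∈ Iᶜ, sg i (r i) x) * v I r x| := by
        apply av_mono
        intro x
        have e1 : ∑ r ∈ shapes ι n, phi (g r) v r x = ∑ I : Finset ι, ∑ r ∈ shapes ι n,
            (g r x * ∏ i ∈ Iᶜ, sg i (r i) x) * v I r x := by
          rw [Finset.sum_comm]
          refine Finset.sum_congr rfl fun r _ => ?_
          rw [phi, Finset.mul_sum]
          refine Finset.sum_congr rfl fun I _ => ?_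
          ring
        rw [e1]
        exact Finset.abs_sum_le_sum_abs _ _
    _ = ∑ I : Finset ι, av fun x => |∑ r ∈ shapes ι n,
          (g r x * ∏ i ∈ Iᶜ, sg i (r i) x) * v I r x| := av_sum _ _
    _ ≤ ∑ I : Finset ι, √A * √((shapes ι n).card) := Finset.sum_le_sum fun I _ => hpart I
    _ = 2 ^ Fintype.card ι * (√A * √((shapes ι n).card)) := by
        rw [Finset.sum_const, Finset.card_univ, Fintype.card_finset, nsmul_eq_mul]
        push_cast
        rfl

end Pool.Agent.Helper70.LA
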